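import Pool.Agent.Y500.R10.A

/-!
# Approximate functional equation with smooth weights: the weights
-/

set_option autoImplicit false

namespace Pool.Agent.Y500.R10

open MeasureTheory Set Filter Topology

/-- the kernel in logarithmic coordinates -/
noncomputable def KK (a : ℂ) (q ρ z : ℝ) : ℂ := qg a (Real.pi * q ^ (2 * ρ * z))

/-- the truncated kernel -/
noncomputable def Kt (a : ℂ) (q ρ : ℝ) : ℝ → ℂ := (Iic (2 : ℝ)).indicator (KK a q ρ)

theorem pw (q ρ : ℝ) (hq : 1 < q) (hρ : 0 < ρ) (x : ℝ) (hx : 0 < x) (ξ : ℝ) :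
    q ^ (2 * ρ * ((Real.log x / Real.log q - 1 / 2) / ρ - ξ)) = x ^ 2 * q ^ (-(2 * ρ * ξ)) / q := by
  have hq0 : 0 < q := by linarith
  have hl : Real.log q ≠ 0 := (Real.log_pos hq).ne'
  have h1 : 2 * ρ * ((Real.log x / Real.log q - 1 / 2) / ρ - ξ) =
      2 * (Real.log x / Real.log q) + -(2 * ρ * ξ) - 1 := by
    field_simp
    ring
  rw [h1, Real.rpow_sub hq0, Real.rpow_add hq0, Real.rpow_one]
  congr 2
  rw [Real.rpow_def_of_pos hq0]
  have h2 : Real.log q * (2 * (Real.log x / Real.log q)) = Real.log (x ^ 2) := by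
    rw [Real.log_pow]
    push_cast
    field_simp
  rw [h2, Real.exp_log (by positivity)]

theorem KK_cont (a : ℂ) (ha : 0 < a.re) (q ρ : ℝ) (hq : 0 < q) : Continuous (KK a q ρ) := by
  obtain ⟨J, hJ, hJ1, -⟩ := qg_cont a ha
  have h1 : KK a q ρ = fun z => J (Real.pi * q ^ (2 * ρ * z)) := by
    funext z
    exact hJ1 _ (by positivity)
  rw [h1]
  refine hJ.comp (continuous_const.mul ?_)
  exact (Real.continuous_const_rpow hq.ne').comp (continuous_const.mul continuous_id)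

theorem KK_bound (a : ℂ) (Cb : ℝ) (hQ : ∀ x : ℝ, 0 ≤ x → ‖qg a x‖ ≤ Cb * Real.exp (-(x / 2)))
    (q ρ : ℝ) (hq : 0 < q) (z : ℝ) :
    ‖KK a q ρ z‖ ≤ Cb * Real.exp (-(Real.pi * q ^ (2 * ρ * z) / 2)) :=
  hQ _ (by positivity)

theorem KK_bound' (a : ℂ) (Cb : ℝ) (hCb : 0 < Cb)
    (hQ : ∀ x : ℝ, 0 ≤ x → ‖qg a x‖ ≤ Cb * Real.exp (-(x / 2)))
    (q ρ : ℝ) (hq : 0 < q) (z : ℝ) : ‖KK a q ρ z‖ ≤ Cb := by
  refine (KK_bound a Cb hQ q ρ hq z).trans ?_
  have h1 : Real.exp (-(Real.pi * q ^ (2 * ρ * z) / 2)) ≤ 1 := by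
    rw [Real.exp_le_one_iff]
    have : 0 ≤ Real.pi * q ^ (2 * ρ * z) / 2 := by positivity
    linarith
  nlinarith

theorem Kt_bound (a : ℂ) (Cb : ℝ) (hCb : 0 < Cb)
    (hQ : ∀ x : ℝ, 0 ≤ x → ‖qg a x‖ ≤ Cb * Real.exp (-(x / 2)))
    (q ρ : ℝ) (hq : 0 < q) (z : ℝ) : ‖Kt a q ρ z‖ ≤ Cb := by
  unfold Kt
  by_cases h : z ∈ Iic (2 : ℝ)
  · rw [indicator_of_mem h]
    exact KK_bound' a Cb hCb hQ q ρ hq z
  · rw [indicator_of_notMem h, norm_zero]
    exact hCb.le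

theorem Kt_loc (a : ℂ) (ha : 0 < a.re) (q ρ : ℝ) (hq : 0 < q) :
    LocallyIntegrable (Kt a q ρ) :=
  (KK_cont a ha q ρ hq).locallyIntegrable.indicator measurableSet_Iic

theorem exp_le (y : ℝ) (hy : 0 < y) : Real.exp (-y) ≤ 1 / y := by
  rw [Real.exp_neg, ← one_div]
  exact one_div_le_one_div_of_le hy (by linarith [Real.add_one_le_exp y])

/-- the smoothed kernel and its truncation -/
theorem diff_bound (a : ℂ) (ha : 0 < a.re) (Cb : ℝ) (hCb : 0 < Cb)
    (hQ : ∀ x : ℝ, 0 ≤ x → ‖qg a x‖ ≤ Cb * Real.exp (-(x / 2)))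
    (q ρ : ℝ) (hq : 1 < q) (hρ : 0 < ρ) (hρ1 : ρ ≤ 1 / 100) (Φ : ℝ → ℝ) (hΦ : Continuous Φ)
    (hΦc : HasCompactSupport Φ) (hΦn : ∀ x, 0 ≤ Φ x) (hΦ0 : ∀ x, 1 ≤ |x| → Φ x = 0)
    (hΦ1 : ∫ x, Φ x = 1) (x : ℝ) (hx : 0 < x) :
    ‖(∫ z, KK a q ρ z * (Φ ((Real.log x / Real.log q - 1 / 2) / ρ - z) : ℂ)) -
      ∫ z, Kt a q ρ z * (Φ ((Real.log x / Real.log q - 1 / 2) / ρ - z) : ℂ)‖ ≤
      Cb * (Real.exp (-(Real.pi * q ^ (4 * ρ) / 4)) * (2 * q ^ 2 / x ^ 2)) := by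
  have hq0 : 0 < q := by linarith
  obtain ⟨u, hu⟩ : ∃ u, u = (Real.log x / Real.log q - 1 / 2) / ρ := ⟨_, rfl⟩
  rw [← hu]
  have hΦi : Integrable Φ := hΦ.integrable_of_hasCompactSupport hΦc
  have hΦui : Integrable (fun z => Φ (u - z)) := hΦi.comp_sub_left u
  have hcs : HasCompactSupport (fun z => KK a q ρ z * (Φ (u - z) : ℂ)) := by
    refine HasCompactSupport.intro (isCompact_Icc (a := u - 1) (b := u + 1)) fun z hz => ?_
    rw [hΦ0 (u - z), Complex.ofReal_zero, mul_zero]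
    by_contra h
    push Not at h
    rw [abs_lt] at h
    exact hz ⟨by linarith, by linarith⟩
  have i1 : Integrable (fun z => KK a q ρ z * (Φ (u - z) : ℂ)) := by
    refine Continuous.integrable_of_hasCompactSupport ?_ hcs
    exact (KK_cont a ha q ρ hq0).mul (Complex.continuous_ofReal.comp
      (hΦ.comp (continuous_const.sub continuous_id)))
  have e2 : (fun z => Kt a q ρ z * (Φ (u - z) : ℂ)) =
      (Iic (2 : ℝ)).indicator (fun z => KK a q ρ z * (Φ (u - z) : ℂ)) := by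
    funext z
    unfold Kt
    by_cases h : z ∈ Iic (2 : ℝ)
    · rw [indicator_of_mem h, indicator_of_mem h]
    · rw [indicator_of_notMem h, indicator_of_notMem h, zero_mul]
  have i2 : Integrable (fun z => Kt a q ρ z * (Φ (u - z) : ℂ)) := by
    rw [e2]
    exact i1.indicator measurableSet_Iic
  rw [← integral_sub i1 i2]
  obtain ⟨D, hD⟩ : ∃ D, D = Cb * (Real.exp (-(Real.pi * q ^ (4 * ρ) / 4)) * (2 * q ^ 2 / x ^ 2)) :=
    ⟨_, rfl⟩
  have hD0 : 0 ≤ D := by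
    rw [hD]
    positivity
  rw [← hD]
  have key : ∀ z, ‖KK a q ρ z * (Φ (u - z) : ℂ) - Kt a q ρ z * (Φ (u - z) : ℂ)‖ ≤
      D * Φ (u - z) := by
    intro z
    by_cases h : z ∈ Iic (2 : ℝ)
    · have h1 : Kt a q ρ z = KK a q ρ z := indicator_of_mem h _
      rw [h1, sub_self, norm_zero]
      exact mul_nonneg hD0 (hΦn _)
    · have h1 : Kt a q ρ z = 0 := indicator_of_notMem h _
      rw [h1, zero_mul, sub_zero, norm_mul, Complex.norm_real, Real.norm_eq_abs,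
        abs_of_nonneg (hΦn _)]
      by_cases h2 : 1 ≤ |u - z|
      · rw [hΦ0 _ h2, mul_zero, mul_zero]
      · refine mul_le_mul_of_nonneg_right ?_ (hΦn _)
        push Not at h2
        rw [abs_lt] at h2
        have h3 : 2 < z := not_le.1 h
        refine (KK_bound a Cb hQ q ρ hq0 z).trans ?_
        rw [hD]
        refine mul_le_mul_of_nonneg_left ?_ hCb.le
        have x1 : q ^ (4 * ρ) ≤ q ^ (2 * ρ * z) :=
          Real.rpow_le_rpow_of_exponent_le hq.le (by nlinarith)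
        have x2 : q ^ (2 * ρ * (u - 1)) ≤ q ^ (2 * ρ * z) :=
          Real.rpow_le_rpow_of_exponent_le hq.le
            (mul_le_mul_of_nonneg_left (by linarith) (by positivity))
        rw [hu, pw q ρ hq hρ x hx 1] at x2
        have x3 : x ^ 2 / q ^ 2 ≤ x ^ 2 * q ^ (-(2 * ρ * 1)) / q := by
          have h4 : q ^ (-1 : ℝ) ≤ q ^ (-(2 * ρ * 1)) :=
            Real.rpow_le_rpow_of_exponent_le hq.le (by linarith)
          rw [Real.rpow_neg_one] at h4
          have h5 : x ^ 2 / q ^ 2 = x ^ 2 * q⁻¹ / q := by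
            field_simp
          rw [h5]
          gcongr
        have x4 : x ^ 2 / q ^ 2 ≤ q ^ (2 * ρ * z) := x3.trans x2
        have e1 : -(Real.pi * q ^ (2 * ρ * z) / 2) =
            -(Real.pi * q ^ (2 * ρ * z) / 4) + -(Real.pi * q ^ (2 * ρ * z) / 4) := by ring
        rw [e1, Real.exp_add]
        refine mul_le_mul ?_ ?_ (Real.exp_pos _).le (Real.exp_pos _).le
        · refine Real.exp_le_exp.2 ?_
          have := mul_le_mul_of_nonneg_left x1 Real.pi_pos.le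
          linarith
        · have hX : 0 < x ^ 2 / q ^ 2 := by positivity
          have h6 : Real.exp (-(Real.pi * q ^ (2 * ρ * z) / 4)) ≤
              Real.exp (-((1 / 2) * (x ^ 2 / q ^ 2))) := by
            refine Real.exp_le_exp.2 ?_
            have h7 := Real.pi_gt_three
            have h8 : 0 < q ^ (2 * ρ * z) := by positivity
            nlinarith
          refine h6.trans ((exp_le _ (by positivity)).trans (le_of_eq ?_))
          field_simp
  calc ‖∫ z, (KK a q ρ z * (Φ (u - z) : ℂ) - Kt a q ρ z * (Φ (u - z) : ℂ))‖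
      ≤ ∫ z, D * Φ (u - z) :=
        norm_integral_le_of_norm_le (hΦui.const_mul _) (Eventually.of_forall key)
    _ = D := by
        rw [integral_const_mul, integral_sub_left_eq_self Φ volume u, hΦ1, mul_one]

/-- the weight -/
noncomputable def GG (a : ℂ) (q ρ : ℝ) (Φ : ℝ → ℝ) (v : ℝ) : ℂ :=
  ∫ z, Kt a q ρ z * (Φ ((v - 1 / 2) / ρ - z) : ℂ)

theorem GG_zero (a : ℂ) (q ρ : ℝ) (hρ : 0 < ρ) (Φ : ℝ → ℝ) (hΦ0 : ∀ x, 1 ≤ |x| → Φ x = 0)
    (v : ℝ) (hv : 1 / 2 + 3 * ρ ≤ v) : GG a q ρ Φ v = 0 := by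
  unfold GG
  rw [← integral_zero ℝ ℂ]
  congr 1
  funext z
  by_cases h : z ∈ Iic (2 : ℝ)
  · have h2 : 3 ≤ (v - 1 / 2) / ρ := by
      rw [le_div_iff₀ hρ]
      linarith
    have h3 : z ≤ 2 := h
    rw [hΦ0, Complex.ofReal_zero, mul_zero]
    rw [abs_of_nonneg (by linarith)]
    linarith
  · have h1 : Kt a q ρ z = 0 := indicator_of_notMem h _
    rw [h1, zero_mul]

theorem GG_one (a : ℂ) (ha : 0 < a.re) (q ρ δ : ℝ) (hq : 1 < q) (hρ : 0 < ρ) (hρ1 : ρ ≤ 1 / 100)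
    (hδ : ∀ x : ℝ, 0 ≤ x → x ≤ δ → ‖qg a x - 1‖ ≤ 1 / 4) (hqδ : Real.pi * q ^ (-(1 / 2) : ℝ) ≤ δ)
    (Φ : ℝ → ℝ) (hΦ : Continuous Φ)
    (hΦc : HasCompactSupport Φ) (hΦn : ∀ x, 0 ≤ Φ x) (hΦ0 : ∀ x, 1 ≤ |x| → Φ x = 0)
    (hΦ1 : ∫ x, Φ x = 1) : ‖GG a q ρ Φ 0 - 1‖ ≤ 1 / 4 := by
  have hq0 : 0 < q := by linarith
  obtain ⟨u, hu⟩ : ∃ u, u = ((0 : ℝ) - 1 / 2) / ρ := ⟨_, rfl⟩
  have hu1 : u ≤ -50 := by
    rw [hu, div_le_iff₀ hρ]
    linarith
  have hu2 : 2 * ρ * u = -1 := by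
    rw [hu]
    field_simp
    norm_num
  unfold GG
  rw [← hu]
  have hΦi : Integrable Φ := hΦ.integrable_of_hasCompactSupport hΦc
  have hΦui : Integrable (fun z => Φ (u - z)) := hΦi.comp_sub_left u
  have hcs : HasCompactSupport (fun z => KK a q ρ z * (Φ (u - z) : ℂ)) := by
    refine HasCompactSupport.intro (isCompact_Icc (a := u - 1) (b := u + 1)) fun z hz => ?_
    rw [hΦ0 (u - z), Complex.ofReal_zero, mul_zero]
    by_contra h
    push Not at h
    rw [abs_lt] at h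
    exact hz ⟨by linarith, by linarith⟩
  have i1 : Integrable (fun z => KK a q ρ z * (Φ (u - z) : ℂ)) := by
    refine Continuous.integrable_of_hasCompactSupport ?_ hcs
    exact (KK_cont a ha q ρ hq0).mul (Complex.continuous_ofReal.comp
      (hΦ.comp (continuous_const.sub continuous_id)))
  have e2 : (fun z => Kt a q ρ z * (Φ (u - z) : ℂ)) = fun z => KK a q ρ z * (Φ (u - z) : ℂ) := by
    funext z
    by_cases h : z ∈ Iic (2 : ℝ)
    · have h1 : Kt a q ρ z = KK a q ρ z := indicator_of_mem h _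
      rw [h1]
    · have h3 : 2 < z := not_le.1 h
      rw [hΦ0 (u - z), Complex.ofReal_zero, mul_zero, mul_zero]
      rw [abs_of_nonpos (by linarith)]
      linarith
  rw [e2]
  have i3 : Integrable (fun z => (Φ (u - z) : ℂ)) := hΦui.ofReal
  have e3 : ∫ z, (Φ (u - z) : ℂ) = 1 := by
    rw [integral_complex_ofReal, integral_sub_left_eq_self Φ volume u, hΦ1, Complex.ofReal_one]
  have e4 : (∫ z, KK a q ρ z * (Φ (u - z) : ℂ)) - 1 =
      ∫ z, (KK a q ρ z * (Φ (u - z) : ℂ) - (Φ (u - z) : ℂ)) := by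
    rw [integral_sub i1 i3, e3]
  rw [e4]
  calc ‖∫ z, (KK a q ρ z * (Φ (u - z) : ℂ) - (Φ (u - z) : ℂ))‖
      ≤ ∫ z, 1 / 4 * Φ (u - z) := by
        refine norm_integral_le_of_norm_le (hΦui.const_mul _) (Eventually.of_forall fun z => ?_)
        have e5 : KK a q ρ z * (Φ (u - z) : ℂ) - (Φ (u - z) : ℂ) =
            (KK a q ρ z - 1) * (Φ (u - z) : ℂ) := by ring
        rw [e5, norm_mul, Complex.norm_real, Real.norm_eq_abs, abs_of_nonneg (hΦn _)]
        by_cases h2 : 1 ≤ |u - z|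
        · rw [hΦ0 _ h2, mul_zero, mul_zero]
        · refine mul_le_mul_of_nonneg_right ?_ (hΦn _)
          push Not at h2
          rw [abs_lt] at h2
          refine hδ _ (by positivity) (le_trans ?_ hqδ)
          refine mul_le_mul_of_nonneg_left ?_ Real.pi_pos.le
          refine Real.rpow_le_rpow_of_exponent_le hq.le ?_
          nlinarith
    _ = 1 / 4 := by
        rw [integral_const_mul, integral_sub_left_eq_self Φ volume u, hΦ1, mul_one]

end Pool.Agent.Y500.R10
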