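import Pool.Agent.Y766.R10.Stm
import Pool.Agent.Y500.R10.B

/-!
# The approximate functional equation with a smooth weight in `log n / log q`
-/

set_option autoImplicit false

namespace Pool.Agent.Y500.R10

open MeasureTheory Set Filter Topology
open Pool.Agent.Y766.R10 (S_AFE S_AFW QG WG AA)

theorem gauss_le (q : ℕ) [NeZero q] (χ : DirichletCharacter ℂ q) :
    ‖gaussSum χ ZMod.stdAddChar‖ ≤ q := by
  unfold gaussSum
  refine (norm_sum_le _ _).trans ?_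
  calc ∑ x : ZMod q, ‖χ x * ZMod.stdAddChar x‖ ≤ ∑ x : ZMod q, (1 : ℝ) := by
        refine Finset.sum_le_sum fun x _ => ?_
        rw [norm_mul, AddChar.norm_apply, mul_one]
        exact DirichletCharacter.norm_le_one χ x
    _ = q := by simp [ZMod.card]

theorem summable_sq : Summable fun n : ℕ => 1 / ((n : ℝ) + 1) ^ 2 := by
  have h := (summable_nat_add_iff 1).2 (Real.summable_one_div_nat_pow.2 (show 1 < 2 by norm_num))
  refine h.congr fun n => ?_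
  push_cast
  rfl

theorem series (c : ℕ → ℂ) (hc : ∀ n, ‖c n‖ ≤ 1) (a : ℂ) (ha : 0 < a.re) (Cb : ℝ) (hCb : 0 < Cb)
    (hQ : ∀ x : ℝ, 0 ≤ x → ‖qg a x‖ ≤ Cb * Real.exp (-(x / 2)))
    (q ρ : ℝ) (hq : 1 < q) (hρ : 0 < ρ) (hρ1 : ρ ≤ 1 / 100) (Φ : ℝ → ℝ) (hΦ : Continuous Φ)
    (hΦc : HasCompactSupport Φ) (hΦe : ∀ x, Φ (-x) = Φ x) (hΦn : ∀ x, 0 ≤ Φ x)
    (hΦ0 : ∀ x, 1 ≤ |x| → Φ x = 0) (hΦ1 : ∫ x, Φ x = 1) (L κ : ℂ)
    (hL : ∀ ξ : ℝ, L =
      (∑' n : ℕ, c n * KK a q ρ ((Real.log ((n : ℝ) + 1) / Real.log q - 1 / 2) / ρ - ξ)) +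
      κ * (starRingEnd ℂ)
        (∑' n : ℕ, c n * KK a q ρ ((Real.log ((n : ℝ) + 1) / Real.log q - 1 / 2) / ρ - -ξ))) :
    ‖L - ((∑' n : ℕ, c n * GG a q ρ Φ (Real.log ((n : ℝ) + 1) / Real.log q)) +
      κ * (starRingEnd ℂ) (∑' n : ℕ, c n * GG a q ρ Φ (Real.log ((n : ℝ) + 1) / Real.log q)))‖ ≤
      (1 + ‖κ‖) * (Cb * Real.exp (-(Real.pi * q ^ (4 * ρ) / 4)) * (2 * q ^ 2) *
        ∑' n : ℕ, 1 / ((n : ℝ) + 1) ^ 2) := by
  have hq0 : 0 < q := by linarith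
  obtain ⟨u, hu⟩ : ∃ u : ℕ → ℝ, u = fun n : ℕ =>
    (Real.log ((n : ℝ) + 1) / Real.log q - 1 / 2) / ρ := ⟨_, rfl⟩
  have hu' : ∀ n : ℕ, (Real.log ((n : ℝ) + 1) / Real.log q - 1 / 2) / ρ = u n := by
    intro n
    rw [hu]
  simp only [hu'] at hL
  have hn : ∀ n : ℕ, (0 : ℝ) < (n : ℝ) + 1 := fun n => by positivity
  obtain ⟨F, hF⟩ : ∃ F : ℕ → ℝ → ℂ, F = fun n ξ => c n * KK a q ρ (u n - ξ) * (Φ ξ : ℂ) :=
    ⟨_, rfl⟩
  have hFc : ∀ n, Continuous (F n) := by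
    intro n
    rw [hF]
    exact (continuous_const.mul ((KK_cont a ha q ρ hq0).comp
      (continuous_const.sub continuous_id))).mul (Complex.continuous_ofReal.comp hΦ)
  have b1 : ∀ n ξ, ‖F n ξ‖ ≤ Cb * (q ^ 2 / ((n : ℝ) + 1) ^ 2) * Φ ξ := by
    intro n ξ
    rw [hF]
    simp only
    rw [norm_mul, norm_mul, Complex.norm_real, Real.norm_eq_abs, abs_of_nonneg (hΦn ξ)]
    by_cases h : 1 ≤ |ξ|
    · rw [hΦ0 ξ h, mul_zero, mul_zero]
    · refine mul_le_mul_of_nonneg_right ?_ (hΦn ξ)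
      push Not at h
      rw [abs_lt] at h
      have h1 : ‖KK a q ρ (u n - ξ)‖ ≤ Cb * (q ^ 2 / ((n : ℝ) + 1) ^ 2) := by
        refine (KK_bound a Cb hQ q ρ hq0 (u n - ξ)).trans ?_
        refine mul_le_mul_of_nonneg_left ?_ hCb.le
        have e0 := pw q ρ hq hρ ((n : ℝ) + 1) (hn n) ξ
        rw [hu' n] at e0
        have x3 : ((n : ℝ) + 1) ^ 2 / q ^ 2 ≤ q ^ (2 * ρ * (u n - ξ)) := by
          rw [e0]
          have h4 : q ^ (-1 : ℝ) ≤ q ^ (-(2 * ρ * ξ)) :=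
            Real.rpow_le_rpow_of_exponent_le hq.le (by nlinarith)
          rw [Real.rpow_neg_one] at h4
          have h5 : ((n : ℝ) + 1) ^ 2 / q ^ 2 = ((n : ℝ) + 1) ^ 2 * q⁻¹ / q := by
            field_simp
          rw [h5]
          gcongr
        have hX : 0 < ((n : ℝ) + 1) ^ 2 / q ^ 2 := by have := hn n; positivity
        have h6 : Real.exp (-(Real.pi * q ^ (2 * ρ * (u n - ξ)) / 2)) ≤
            Real.exp (-(((n : ℝ) + 1) ^ 2 / q ^ 2)) := by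
          refine Real.exp_le_exp.2 ?_
          have h7 := Real.pi_gt_three
          have h8 : 0 < q ^ (2 * ρ * (u n - ξ)) := by positivity
          nlinarith
        refine h6.trans ((exp_le _ hX).trans (le_of_eq ?_))
        rw [one_div_div]
      calc ‖c n‖ * ‖KK a q ρ (u n - ξ)‖ ≤ 1 * (Cb * (q ^ 2 / ((n : ℝ) + 1) ^ 2)) :=
            mul_le_mul (hc n) h1 (norm_nonneg _) zero_le_one
        _ = _ := one_mul _
  have hsum1 : ∀ M : ℝ, Summable fun n : ℕ => Cb * (q ^ 2 / ((n : ℝ) + 1) ^ 2) * M := by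
    intro M
    have h1 := summable_sq.mul_left (Cb * q ^ 2 * M)
    refine h1.congr fun n => ?_
    ring
  have hΦi : Integrable Φ := hΦ.integrable_of_hasCompactSupport hΦc
  obtain ⟨M, hM⟩ := hΦc.exists_bound_of_continuous hΦ
  obtain ⟨R, hR⟩ : ∃ R : ℝ → ℂ, R = fun ξ => ∑' n, F n ξ := ⟨_, rfl⟩
  have hRc : Continuous R := by
    rw [hR]
    refine continuous_tsum hFc (hsum1 M) fun n ξ => (b1 n ξ).trans ?_
    refine mul_le_mul_of_nonneg_left ?_ (by positivity)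
    exact (le_abs_self _).trans (hM ξ)
  have hF0 : ∀ n ξ, 1 ≤ |ξ| → F n ξ = 0 := by
    intro n ξ h
    rw [hF]
    simp only
    rw [hΦ0 ξ h, Complex.ofReal_zero, mul_zero]
  have hcsupp : ∀ f : ℝ → ℂ, (∀ ξ, 1 ≤ |ξ| → f ξ = 0) → HasCompactSupport f := by
    intro f hf
    refine HasCompactSupport.intro (isCompact_Icc (a := (-1 : ℝ)) (b := 1)) fun z hz => hf z ?_
    by_contra h
    push Not at h
    rw [abs_lt] at h
    exact hz ⟨by linarith, by linarith⟩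
  have hR0 : ∀ ξ, 1 ≤ |ξ| → R ξ = 0 := by
    intro ξ h
    rw [hR]
    simp only
    rw [tsum_congr (fun n => hF0 n ξ h), tsum_zero]
  have hRi : Integrable R := hRc.integrable_of_hasCompactSupport (hcsupp R hR0)
  have hFi : ∀ n, Integrable (F n) := fun n =>
    (hFc n).integrable_of_hasCompactSupport (hcsupp (F n) (hF0 n))
  have hFs : Summable fun n => ∫ ξ, ‖F n ξ‖ := by
    refine Summable.of_nonneg_of_le (fun n => integral_nonneg fun _ => norm_nonneg _)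
      (fun n => ?_) (hsum1 1)
    calc ∫ ξ, ‖F n ξ‖ ≤ ∫ ξ, Cb * (q ^ 2 / ((n : ℝ) + 1) ^ 2) * Φ ξ :=
          integral_mono (hFi n).norm (hΦi.const_mul _) (b1 n)
      _ = Cb * (q ^ 2 / ((n : ℝ) + 1) ^ 2) * 1 := by rw [integral_const_mul, hΦ1]
  have hA : HasSum (fun n => ∫ ξ, F n ξ) (∫ ξ, R ξ) := by
    rw [hR]
    exact hasSum_integral_of_summable_integral_norm hFi hFs
  obtain ⟨A, hAd⟩ : ∃ A, A = ∫ ξ, R ξ := ⟨_, rfl⟩
  rw [← hAd] at hA
  -- the integral of the functional equation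
  have hRe : ∀ ξ, R ξ = (∑' n, c n * KK a q ρ (u n - ξ)) * (Φ ξ : ℂ) := by
    intro ξ
    rw [hR, hF]
    simp only
    rw [tsum_mul_right]
  have hLR : ∀ ξ, L * (Φ ξ : ℂ) = R ξ + κ * (starRingEnd ℂ) (R (-ξ)) := by
    intro ξ
    rw [hRe, hRe, hΦe, map_mul, Complex.conj_ofReal]
    conv_lhs => rw [hL ξ]
    ring
  have hLA : L = A + κ * (starRingEnd ℂ) A := by
    have h1 : ∫ ξ, L * (Φ ξ : ℂ) = L := by
      rw [integral_const_mul, integral_complex_ofReal, hΦ1, Complex.ofReal_one, mul_one]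
    have h2 : ∫ ξ, (R ξ + κ * (starRingEnd ℂ) (R (-ξ))) = A + κ * (starRingEnd ℂ) A := by
      have i2 : Integrable fun ξ => R (-ξ) := hRi.comp_neg
      have i3 : Integrable fun ξ => (starRingEnd ℂ) (R (-ξ)) :=
        (Complex.conjCLE : ℂ →L[ℝ] ℂ).integrable_comp i2
      rw [integral_add hRi (i3.const_mul κ), integral_const_mul, integral_conj,
        integral_neg_eq_self R volume, ← hAd]
    rw [← h1, ← h2]
    exact integral_congr_ae (Eventually.of_forall hLR)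
  -- the terms
  have hW : ∀ n, ∫ ξ, F n ξ = c n * ∫ z, KK a q ρ z * (Φ (u n - z) : ℂ) := by
    intro n
    have h1 : ∫ ξ, F n ξ = c n * ∫ ξ, KK a q ρ (u n - ξ) * (Φ ξ : ℂ) := by
      rw [← integral_const_mul, hF]
      simp only [mul_assoc]
    rw [h1, ← integral_sub_left_eq_self (fun z => KK a q ρ z * (Φ (u n - z) : ℂ)) volume (u n)]
    simp only [sub_sub_cancel]
  obtain ⟨E, hE⟩ : ∃ E, E = Cb * Real.exp (-(Real.pi * q ^ (4 * ρ) / 4)) * (2 * q ^ 2) := ⟨_, rfl⟩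
  have hEp : 0 < E := by rw [hE]; positivity
  rw [← hE]
  obtain ⟨g, hg⟩ : ∃ g : ℕ → ℂ, g = fun n : ℕ =>
    GG a q ρ Φ (Real.log ((n : ℝ) + 1) / Real.log q) := ⟨_, rfl⟩
  have hg' : ∀ n : ℕ, GG a q ρ Φ (Real.log ((n : ℝ) + 1) / Real.log q) = g n := by
    intro n
    rw [hg]
  simp only [hg']
  have hD : ∀ n, ‖(∫ ξ, F n ξ) - c n * g n‖ ≤ E * (1 / ((n : ℝ) + 1) ^ 2) := by
    intro n
    rw [hW, ← mul_sub, norm_mul]
    have h1 := diff_bound a ha Cb hCb hQ q ρ hq hρ hρ1 Φ hΦ hΦc hΦn hΦ0 hΦ1 ((n : ℝ) + 1) (hn n)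
    have h2 : (∫ z, Kt a q ρ z *
        (Φ ((Real.log ((n : ℝ) + 1) / Real.log q - 1 / 2) / ρ - z) : ℂ)) = g n := by
      rw [hg]
      rfl
    rw [h2] at h1
    rw [hu' n] at h1
    have h3 : Cb * (Real.exp (-(Real.pi * q ^ (4 * ρ) / 4)) * (2 * q ^ 2 / ((n : ℝ) + 1) ^ 2)) =
        E * (1 / ((n : ℝ) + 1) ^ 2) := by
      rw [hE]
      ring
    rw [h3] at h1
    calc _ ≤ 1 * (E * (1 / ((n : ℝ) + 1) ^ 2)) :=
          mul_le_mul (hc n) h1 (norm_nonneg _) zero_le_one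
      _ = _ := one_mul _
  have hDs : Summable fun n => (∫ ξ, F n ξ) - c n * g n :=
    Summable.of_norm_bounded (summable_sq.mul_left E) hD
  have hDn : ‖∑' n, ((∫ ξ, F n ξ) - c n * g n)‖ ≤ E * ∑' n : ℕ, 1 / ((n : ℝ) + 1) ^ 2 := by
    refine tsum_of_norm_bounded ?_ hD
    exact (summable_sq.hasSum).mul_left E
  have hB : HasSum (fun n => c n * g n) (A - ∑' n, ((∫ ξ, F n ξ) - c n * g n)) := by
    have h1 := hA.sub hDs.hasSum
    refine h1.congr_fun ?_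
    intro n
    ring
  obtain ⟨D, hDd⟩ : ∃ D, D = ∑' n, ((∫ ξ, F n ξ) - c n * g n) := ⟨_, rfl⟩
  rw [← hDd] at hB hDn
  rw [hB.tsum_eq, hLA]
  have h5 : A + κ * (starRingEnd ℂ) A - (A - D + κ * (starRingEnd ℂ) (A - D)) =
      D + κ * (starRingEnd ℂ) D := by
    rw [map_sub]
    ring
  rw [h5]
  calc ‖D + κ * (starRingEnd ℂ) D‖ ≤ ‖D‖ + ‖κ * (starRingEnd ℂ) D‖ := norm_add_le _ _
    _ = (1 + ‖κ‖) * ‖D‖ := by
        rw [norm_mul, RCLike.norm_conj]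
        ring
    _ ≤ _ := mul_le_mul_of_nonneg_left hDn (by positivity)

theorem afw (h : S_AFE) : S_AFW := by
  intro t ρ hρ hρ1
  obtain ⟨a, ha⟩ : ∃ a : ℂ, a = (1 / 2 + (t : ℂ) * Complex.I) / 2 := ⟨_, rfl⟩
  have hare : 0 < a.re := by
    have h1 : a.re = 1 / 4 := by
      rw [ha]
      simp
      norm_num
    rw [h1]
    norm_num
  obtain ⟨Cb, hCb, hQ⟩ := qg_bound a hare
  obtain ⟨δ, hδ, hnear⟩ := qg_near a hare
  obtain ⟨Φ, hΦs, hΦc, hΦe, hΦn, hΦ0, hΦ1⟩ := exists_phi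
  have hΦ : Continuous Φ := hΦs.continuous
  have hΨs : ContDiff ℝ ((⊤ : ℕ∞) : WithTop ℕ∞) (fun x => (Φ x : ℂ)) :=
    Complex.ofRealCLM.contDiff.comp hΦs
  have hΨc : HasCompactSupport (fun x => (Φ x : ℂ)) := hΦc.comp_left Complex.ofReal_zero
  obtain ⟨C, hC, hWG⟩ := conv_WG _ hΨs hΨc ρ hρ Cb hCb
  obtain ⟨Z, hZ⟩ : ∃ Z, Z = ∑' n : ℕ, 1 / ((n : ℝ) + 1) ^ 2 := ⟨_, rfl⟩
  have hZ0 : 0 ≤ Z := by
    rw [hZ]
    exact tsum_nonneg fun n => by positivity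
  obtain ⟨q₁, hq₁⟩ := growth ρ (4 * Cb * Z) hρ
  refine ⟨C, max (max 3 q₁) ((Real.pi / δ) ^ 2), hC, ?_⟩
  intro q _ hq
  have hq3 : (3 : ℝ) ≤ q := (le_max_left _ _).trans ((le_max_left _ _).trans hq)
  have hq1 : q₁ ≤ q := (le_max_right _ _).trans ((le_max_left _ _).trans hq)
  have hq2 : (Real.pi / δ) ^ 2 ≤ q := (le_max_right _ _).trans hq
  have hqn : 1 < q := by
    have : (1 : ℝ) < q := by linarith
    exact_mod_cast this
  have hqr : (1 : ℝ) < q := by linarith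
  have hqp : (0 : ℝ) < q := by linarith
  obtain ⟨γ, hγ, hAFE⟩ := h q hqn t
  have hqδ : Real.pi * (q : ℝ) ^ (-(1 / 2) : ℝ) ≤ δ := by
    have h1 : Real.pi / δ ≤ Real.sqrt q := Real.le_sqrt_of_sq_le hq2
    rw [div_le_iff₀ hδ] at h1
    rw [Real.rpow_neg hqp.le, ← Real.sqrt_eq_rpow, ← div_eq_mul_inv,
      div_le_iff₀ (Real.sqrt_pos.2 hqp)]
    linarith
  refine ⟨GG a q ρ Φ, γ, ?_, hγ, fun v hv => GG_zero a q ρ hρ Φ hΦ0 v hv,
    GG_one a hare q ρ δ hqr hρ hρ1 hnear hqδ Φ hΦ hΦc hΦn hΦ0 hΦ1, ?_⟩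
  · have h1 := hWG (Kt a q ρ) (Kt_loc a hare q ρ hqp) (Kt_bound a Cb hCb hQ q ρ hqp)
    exact ⟨h1.smooth, h1.b0, h1.b1, h1.b2⟩
  · intro χ hχ hχe
    obtain ⟨c, hcd⟩ : ∃ c : ℕ → ℂ, c = fun n : ℕ => χ ((n + 1 : ℕ) : ZMod q) *
      ((n + 1 : ℕ) : ℂ) ^ (-(1 / 2 + (t : ℂ) * Complex.I)) := ⟨_, rfl⟩
    have hc : ∀ n, ‖c n‖ ≤ 1 := by
      intro n
      rw [hcd]
      simp only
      rw [norm_mul, Complex.norm_natCast_cpow_of_pos (Nat.succ_pos n)]
      have h1 : (-(1 / 2 + (t : ℂ) * Complex.I)).re = -(1 / 2) := by simp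
      rw [h1]
      have h2 : ((n + 1 : ℕ) : ℝ) ^ (-(1 / 2) : ℝ) ≤ 1 :=
        Real.rpow_le_one_of_one_le_of_nonpos (by push_cast; linarith [Nat.cast_nonneg (α := ℝ) n])
          (by norm_num)
      exact mul_le_one₀ (DirichletCharacter.norm_le_one χ _) (by positivity) h2
    have hser := series c hc a hare Cb hCb hQ q ρ hqr hρ hρ1 Φ hΦ hΦc hΦe hΦn hΦ0 hΦ1
      (χ.LFunction (1 / 2 + (t : ℂ) * Complex.I))
      (γ * (gaussSum χ ZMod.stdAddChar / (Real.sqrt q : ℂ))) (by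
        intro ξ
        rw [hAFE χ hχ hχe ((q : ℝ) ^ (-(2 * ρ * ξ))) (by positivity)]
        have e1 : ∀ n : ℕ, QG ((1 / 2 + (t : ℂ) * Complex.I) / 2)
            (Real.pi * ((n : ℝ) + 1) ^ 2 * (q : ℝ) ^ (-(2 * ρ * ξ)) / q) =
            KK a q ρ ((Real.log ((n : ℝ) + 1) / Real.log q - 1 / 2) / ρ - ξ) := by
          intro n
          unfold KK
          rw [pw q ρ hqr hρ ((n : ℝ) + 1) (by positivity) ξ, ← ha]
          have e2 : Real.pi * ((n : ℝ) + 1) ^ 2 * (q : ℝ) ^ (-(2 * ρ * ξ)) / q =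
              Real.pi * (((n : ℝ) + 1) ^ 2 * (q : ℝ) ^ (-(2 * ρ * ξ)) / q) := by ring
          rw [e2]
          rfl
        have e3 : ∀ n : ℕ, QG ((1 / 2 + (t : ℂ) * Complex.I) / 2)
            (Real.pi * ((n : ℝ) + 1) ^ 2 / ((q : ℝ) ^ (-(2 * ρ * ξ)) * q)) =
            KK a q ρ ((Real.log ((n : ℝ) + 1) / Real.log q - 1 / 2) / ρ - -ξ) := by
          intro n
          unfold KK
          rw [pw q ρ hqr hρ ((n : ℝ) + 1) (by positivity) (-ξ), ← ha]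
          have e2 : Real.pi * ((n : ℝ) + 1) ^ 2 / ((q : ℝ) ^ (-(2 * ρ * ξ)) * q) =
              Real.pi * (((n : ℝ) + 1) ^ 2 * (q : ℝ) ^ (-(2 * ρ * -ξ)) / q) := by
            have e4 : (q : ℝ) ^ (-(2 * ρ * -ξ)) = ((q : ℝ) ^ (-(2 * ρ * ξ)))⁻¹ := by
              rw [← Real.rpow_neg hqp.le]
              congr 1
              ring
            rw [e4]
            field_simp
          rw [e2]
          rfl
        simp only [e1, e3, hcd])
    have hAA : AA χ (GG a q ρ Φ) t =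
        ∑' n : ℕ, c n * GG a q ρ Φ (Real.log ((n : ℝ) + 1) / Real.log q) := by
      rw [tsum_eq_sum (s := Finset.range q)]
      · unfold AA
        have h1 : Finset.Icc 1 q = (Finset.range q).image (fun n => n + 1) := by
          ext n
          rw [Finset.mem_Icc, Finset.mem_image]
          constructor
          · rintro ⟨h2, h3⟩
            exact ⟨n - 1, Finset.mem_range.2 (by omega), by omega⟩
          · rintro ⟨m, h2, rfl⟩
            rw [Finset.mem_range] at h2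
            omega
        rw [h1, Finset.sum_image (fun x _ y _ hxy => Nat.succ_injective hxy)]
        refine Finset.sum_congr rfl fun n _ => ?_
        rw [hcd]
        simp only
        rw [mul_comm]
        push_cast
        rfl
      · intro n hn
        rw [Finset.mem_range, not_lt] at hn
        rw [GG_zero a q ρ hρ Φ hΦ0, mul_zero]
        have h2 : (1 : ℝ) ≤ Real.log ((n : ℝ) + 1) / Real.log q := by
          rw [le_div_iff₀ (Real.log_pos hqr), one_mul]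
          refine Real.log_le_log hqp ?_
          have : (q : ℝ) ≤ n := by exact_mod_cast hn
          linarith
        linarith
    rw [← hAA, ← hZ] at hser
    refine hser.trans ?_
    have hκ : ‖γ * (gaussSum χ ZMod.stdAddChar / (Real.sqrt q : ℂ))‖ ≤ q := by
      rw [norm_mul, hγ, one_mul, norm_div, Complex.norm_real, Real.norm_eq_abs,
        abs_of_nonneg (Real.sqrt_nonneg _)]
      have h1 : (1 : ℝ) ≤ Real.sqrt q := Real.one_le_sqrt.2 hqr.le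
      rw [div_le_iff₀ (by linarith)]
      have h2 := gauss_le q χ
      nlinarith
    have hg := hq₁ q hq1
    have hE : 0 ≤ Cb * Real.exp (-(Real.pi * (q : ℝ) ^ (4 * ρ) / 4)) * (2 * (q : ℝ) ^ 2) * Z := by
      positivity
    rw [le_div_iff₀ hqp]
    calc (1 + ‖γ * (gaussSum χ ZMod.stdAddChar / (Real.sqrt q : ℂ))‖) *
          (Cb * Real.exp (-(Real.pi * (q : ℝ) ^ (4 * ρ) / 4)) * (2 * (q : ℝ) ^ 2) * Z) * q
        ≤ (2 * q) * (Cb * Real.exp (-(Real.pi * (q : ℝ) ^ (4 * ρ) / 4)) *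
          (2 * (q : ℝ) ^ 2) * Z) * q := by
          refine mul_le_mul_of_nonneg_right (mul_le_mul_of_nonneg_right ?_ hE) hqp.le
          linarith
      _ = 4 * Cb * Z * (q : ℝ) ^ 4 * Real.exp (-(Real.pi * (q : ℝ) ^ (4 * ρ) / 4)) := by ring
      _ ≤ 1 := hg

end Pool.Agent.Y500.R10
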