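import Mathlib

/-!
# Approximate functional equation with smooth weights: preparations
-/

set_option autoImplicit false

namespace Pool.Agent.Y500.R10

open MeasureTheory Set Filter Topology

/-- the normalised incomplete gamma function -/
noncomputable def qg (a : ℂ) (x : ℝ) : ℂ :=
  (∫ u in Set.Ioi x, (u : ℂ) ^ (a - 1) * (Real.exp (-u) : ℂ)) / Complex.Gamma a

theorem norm_f (a : ℂ) (u : ℝ) (hu : 0 < u) :
    ‖(u : ℂ) ^ (a - 1) * (Real.exp (-u) : ℂ)‖ = u ^ (a.re - 1) * Real.exp (-u) := by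
  rw [norm_mul, Complex.norm_cpow_eq_rpow_re_of_pos hu, Complex.norm_real, Real.norm_eq_abs,
    abs_of_pos (Real.exp_pos _), Complex.sub_re, Complex.one_re]

theorem int_f (a : ℂ) (ha : 0 < a.re) :
    IntegrableOn (fun u : ℝ => (u : ℂ) ^ (a - 1) * (Real.exp (-u) : ℂ)) (Ioi 0) := by
  have h := Complex.GammaIntegral_convergent ha
  refine h.congr_fun (fun u _ => ?_) measurableSet_Ioi
  exact mul_comm _ _

theorem gamma_eq (a : ℂ) (ha : 0 < a.re) :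
    ∫ u in Set.Ioi (0 : ℝ), (u : ℂ) ^ (a - 1) * (Real.exp (-u) : ℂ) = Complex.Gamma a := by
  rw [Complex.Gamma_eq_integral ha, Complex.GammaIntegral]
  refine setIntegral_congr_fun measurableSet_Ioi fun u _ => ?_
  exact mul_comm _ _

theorem qg_bound (a : ℂ) (ha : 0 < a.re) : ∃ C : ℝ, 0 < C ∧ ∀ x : ℝ, 0 ≤ x →
    ‖qg a x‖ ≤ C * Real.exp (-(x / 2)) := by
  have hint : IntegrableOn (fun u : ℝ => u ^ (a.re - 1) * Real.exp (-(1 / 2) * u)) (Ioi 0) := by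
    have h := integrableOn_rpow_mul_exp_neg_mul_rpow (p := 1) (s := a.re - 1) (b := 1 / 2)
      (by linarith) one_pos (by norm_num)
    simpa using h
  obtain ⟨I, hI⟩ : ∃ I, I = ∫ u in Ioi (0 : ℝ), u ^ (a.re - 1) * Real.exp (-(1 / 2) * u) :=
    ⟨_, rfl⟩
  have hI0 : 0 ≤ I := by
    rw [hI]
    exact setIntegral_nonneg measurableSet_Ioi fun u hu =>
      mul_nonneg (Real.rpow_nonneg (le_of_lt hu) _) (Real.exp_pos _).le
  have hG : 0 < ‖Complex.Gamma a‖ := norm_pos_iff.2 (Complex.Gamma_ne_zero_of_re_pos ha)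
  refine ⟨(I + 1) / ‖Complex.Gamma a‖, by positivity, fun x hx => ?_⟩
  rw [qg, norm_div, div_mul_eq_mul_div]
  refine div_le_div_of_nonneg_right ?_ hG.le
  have hintx : IntegrableOn (fun u : ℝ => u ^ (a.re - 1) * Real.exp (-(1 / 2) * u)) (Ioi x) :=
    hint.mono_set (Ioi_subset_Ioi hx)
  calc ‖∫ u in Ioi x, (u : ℂ) ^ (a - 1) * (Real.exp (-u) : ℂ)‖
      ≤ ∫ u in Ioi x, ‖(u : ℂ) ^ (a - 1) * (Real.exp (-u) : ℂ)‖ :=
        norm_integral_le_integral_norm _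
    _ ≤ ∫ u in Ioi x, Real.exp (-(x / 2)) * (u ^ (a.re - 1) * Real.exp (-(1 / 2) * u)) := by
        refine setIntegral_mono_on ((int_f a ha).mono_set (Ioi_subset_Ioi hx)).norm
          (hintx.const_mul _) measurableSet_Ioi fun u hu => ?_
        have hu0 : 0 < u := lt_of_le_of_lt hx hu
        rw [norm_f a u hu0]
        have h1 : Real.exp (-u) = Real.exp (-(u / 2)) * Real.exp (-(1 / 2) * u) := by
          rw [← Real.exp_add]
          congr 1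
          ring
        have h2 : Real.exp (-(u / 2)) ≤ Real.exp (-(x / 2)) :=
          Real.exp_le_exp.2 (by have : x < u := hu; linarith)
        rw [h1]
        have h3 : 0 ≤ u ^ (a.re - 1) := Real.rpow_nonneg hu0.le _
        calc u ^ (a.re - 1) * (Real.exp (-(u / 2)) * Real.exp (-(1 / 2) * u))
            = Real.exp (-(u / 2)) * (u ^ (a.re - 1) * Real.exp (-(1 / 2) * u)) := by ring
          _ ≤ _ := mul_le_mul_of_nonneg_right h2 (mul_nonneg h3 (Real.exp_pos _).le)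
    _ = Real.exp (-(x / 2)) * ∫ u in Ioi x, u ^ (a.re - 1) * Real.exp (-(1 / 2) * u) :=
        integral_const_mul _ _
    _ ≤ Real.exp (-(x / 2)) * I := by
        refine mul_le_mul_of_nonneg_left ?_ (Real.exp_pos _).le
        rw [hI]
        refine setIntegral_mono_set hint ?_ (Ioi_subset_Ioi hx).eventuallyLE
        refine (ae_restrict_iff' measurableSet_Ioi).2 (Eventually.of_forall fun u hu => ?_)
        exact mul_nonneg (Real.rpow_nonneg (le_of_lt hu) _) (Real.exp_pos _).le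
    _ ≤ (I + 1) * Real.exp (-(x / 2)) := by nlinarith [Real.exp_pos (-(x / 2))]

theorem qg_cont (a : ℂ) (ha : 0 < a.re) : ∃ J : ℝ → ℂ, Continuous J ∧
    (∀ x, 0 ≤ x → qg a x = J x) ∧ J 0 = 1 := by
  have hG : Complex.Gamma a ≠ 0 := Complex.Gamma_ne_zero_of_re_pos ha
  obtain ⟨f, hf⟩ : ∃ f : ℝ → ℂ, f = fun u : ℝ => (u : ℂ) ^ (a - 1) * (Real.exp (-u) : ℂ) :=
    ⟨_, rfl⟩
  have hfi : IntegrableOn f (Ioi 0) := by rw [hf]; exact int_f a ha
  have hfG : ∫ u in Ioi (0 : ℝ), f u = Complex.Gamma a := by rw [hf]; exact gamma_eq a ha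
  have hf0 : Integrable ((Ioi (0 : ℝ)).indicator f) := hfi.integrable_indicator measurableSet_Ioi
  refine ⟨fun x => (Complex.Gamma a - ∫ u in (0 : ℝ)..x, (Ioi (0 : ℝ)).indicator f u) /
    Complex.Gamma a, ?_, ?_, ?_⟩
  · exact (continuous_const.sub (hf0.continuous_primitive 0)).div_const _
  · intro x hx
    unfold qg
    congr 1
    have h1 : ∫ u in Ioi x, (Ioi (0 : ℝ)).indicator f u = ∫ u in Ioi x, f u := by
      refine setIntegral_congr_fun measurableSet_Ioi fun u hu => ?_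
      exact indicator_of_mem (lt_of_le_of_lt hx hu) f
    have h2 : ∫ u in Ioi (0 : ℝ), (Ioi (0 : ℝ)).indicator f u = Complex.Gamma a := by
      rw [← hfG]
      refine setIntegral_congr_fun measurableSet_Ioi fun u hu => ?_
      exact indicator_of_mem hu f
    have h3 := intervalIntegral.integral_interval_add_Ioi (a := 0) (b := x)
      hf0.integrableOn hf0.integrableOn
    rw [h1, h2] at h3
    rw [← h3]
    rw [hf]
    ring
  · simp [hG]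

theorem qg_near (a : ℂ) (ha : 0 < a.re) : ∃ δ : ℝ, 0 < δ ∧ ∀ x : ℝ, 0 ≤ x → x ≤ δ →
    ‖qg a x - 1‖ ≤ 1 / 4 := by
  obtain ⟨J, hJ, hJ1, hJ0⟩ := qg_cont a ha
  have h1 := Metric.continuous_iff.1 hJ 0 (1 / 4) (by norm_num)
  obtain ⟨δ, hδ, h2⟩ := h1
  refine ⟨δ / 2, by positivity, fun x hx hxδ => ?_⟩
  have h3 := h2 x (by rw [Real.dist_eq, sub_zero, abs_of_nonneg hx]; linarith)
  rw [hJ0, dist_eq_norm] at h3
  rw [hJ1 x hx]
  exact h3.le

theorem exists_phi : ∃ Φ : ℝ → ℝ, ContDiff ℝ ((⊤ : ℕ∞) : WithTop ℕ∞) Φ ∧ HasCompactSupport Φ ∧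
    (∀ x, Φ (-x) = Φ x) ∧ (∀ x, 0 ≤ Φ x) ∧ (∀ x, 1 ≤ |x| → Φ x = 0) ∧ ∫ x, Φ x = 1 := by
  obtain ⟨f, hf⟩ : ∃ f : ContDiffBump (0 : ℝ), f.rOut = 1 :=
    ⟨⟨1 / 2, 1, by norm_num, by norm_num⟩, rfl⟩
  refine ⟨f.normed volume, f.contDiff_normed, f.hasCompactSupport_normed, f.normed_neg,
    fun x => f.nonneg_normed x, ?_, f.integral_normed⟩
  intro x hx
  by_contra h
  have h1 : x ∈ Function.support (f.normed volume) := h
  rw [f.support_normed_eq, hf, Metric.mem_ball, Real.dist_eq, sub_zero] at h1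
  linarith

/-- smooth weights -/
structure WG' (B : ℝ) (G : ℝ → ℂ) : Prop where
  smooth : ContDiff ℝ ((⊤ : ℕ∞) : WithTop ℕ∞) G
  b0 : ∀ v, ‖G v‖ ≤ B
  b1 : ∀ v, ‖deriv G v‖ ≤ B
  b2 : ∀ v, ‖deriv (deriv G) v‖ ≤ B

theorem conv_bound (k g : ℝ → ℂ) (hg : Continuous g) (hgc : HasCompactSupport g) (Cb : ℝ)
    (hk : ∀ z, ‖k z‖ ≤ Cb) (x : ℝ) :
    ‖∫ z, k z * g (x - z)‖ ≤ Cb * ∫ z, ‖g z‖ := by
  have hgi : Integrable (fun z => ‖g z‖) := (hg.integrable_of_hasCompactSupport hgc).norm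
  calc ‖∫ z, k z * g (x - z)‖ ≤ ∫ z, Cb * ‖g (x - z)‖ := by
        refine norm_integral_le_of_norm_le ((hgi.comp_sub_left x).const_mul _)
          (Eventually.of_forall fun z => ?_)
        rw [norm_mul]
        exact mul_le_mul_of_nonneg_right (hk z) (norm_nonneg _)
    _ = Cb * ∫ z, ‖g z‖ := by
        rw [integral_const_mul, integral_sub_left_eq_self (fun z => ‖g z‖) volume x]

theorem conv_deriv (k g : ℝ → ℂ) (hg : ContDiff ℝ ((⊤ : ℕ∞) : WithTop ℕ∞) g)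
    (hgc : HasCompactSupport g) (hk : LocallyIntegrable k) (ρ : ℝ) (v : ℝ) :
    HasDerivAt (fun v => ∫ z, k z * g ((v - 1 / 2) / ρ - z))
      ((∫ z, k z * deriv g ((v - 1 / 2) / ρ - z)) * ((1 / ρ : ℝ) : ℂ)) v := by
  have h1 : HasDerivAt (fun x => ∫ z, k z * g (x - z))
      (∫ z, k z * deriv g ((v - 1 / 2) / ρ - z)) ((v - 1 / 2) / ρ) :=
    HasCompactSupport.hasDerivAt_convolution_right (ContinuousLinearMap.mul ℝ ℂ) hk hgc
      (hg.of_le (by exact_mod_cast le_top)) ((v - 1 / 2) / ρ)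
  have h2 : HasDerivAt (fun v : ℝ => (v - 1 / 2) / ρ) (1 / ρ) v :=
    ((hasDerivAt_id v).sub_const (1 / 2)).div_const ρ
  have h3 := h1.scomp v h2
  refine h3.congr_deriv ?_
  rw [mul_comm, Complex.real_smul]

theorem conv_WG (Φ : ℝ → ℂ) (hs : ContDiff ℝ ((⊤ : ℕ∞) : WithTop ℕ∞) Φ)
    (hc : HasCompactSupport Φ) (ρ : ℝ) (hρ : 0 < ρ) (Cb : ℝ) (hCb : 0 < Cb) :
    ∃ C : ℝ, 0 < C ∧ ∀ k : ℝ → ℂ, LocallyIntegrable k → (∀ z, ‖k z‖ ≤ Cb) →
      WG' C (fun v => ∫ z, k z * Φ ((v - 1 / 2) / ρ - z)) := by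
  have hs1 : ContDiff ℝ ((⊤ : ℕ∞) : WithTop ℕ∞) (deriv Φ) :=
    (contDiff_infty_iff_deriv.1 hs).2
  have hs2 : ContDiff ℝ ((⊤ : ℕ∞) : WithTop ℕ∞) (deriv (deriv Φ)) :=
    (contDiff_infty_iff_deriv.1 hs1).2
  have hc1 : HasCompactSupport (deriv Φ) := hc.deriv
  have hc2 : HasCompactSupport (deriv (deriv Φ)) := hc1.deriv
  obtain ⟨I0, hI0⟩ : ∃ I, I = ∫ z, ‖Φ z‖ := ⟨_, rfl⟩
  obtain ⟨I1, hI1⟩ : ∃ I, I = ∫ z, ‖deriv Φ z‖ := ⟨_, rfl⟩
  obtain ⟨I2, hI2⟩ : ∃ I, I = ∫ z, ‖deriv (deriv Φ) z‖ := ⟨_, rfl⟩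
  have p0 : 0 ≤ I0 := by rw [hI0]; exact integral_nonneg fun _ => norm_nonneg _
  have p1 : 0 ≤ I1 := by rw [hI1]; exact integral_nonneg fun _ => norm_nonneg _
  have p2 : 0 ≤ I2 := by rw [hI2]; exact integral_nonneg fun _ => norm_nonneg _
  obtain ⟨C, hC⟩ : ∃ C, C = Cb * (I0 + I1 * (1 / ρ) + I2 * (1 / ρ) * (1 / ρ)) + 1 := ⟨_, rfl⟩
  have q0 : 0 ≤ Cb * I0 := by positivity
  have q1 : 0 ≤ Cb * (I1 * (1 / ρ)) := by positivity
  have q2 : 0 ≤ Cb * (I2 * (1 / ρ) * (1 / ρ)) := by positivity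
  refine ⟨C, by rw [hC]; nlinarith, fun k hk hkb => ?_⟩
  have d1 : deriv (fun v => ∫ z, k z * Φ ((v - 1 / 2) / ρ - z)) =
      fun v => (∫ z, k z * deriv Φ ((v - 1 / 2) / ρ - z)) * ((1 / ρ : ℝ) : ℂ) :=
    funext fun v => (conv_deriv k Φ hs hc hk ρ v).deriv
  have d2 : deriv (fun v => (∫ z, k z * deriv Φ ((v - 1 / 2) / ρ - z)) * ((1 / ρ : ℝ) : ℂ)) =
      fun v => (∫ z, k z * deriv (deriv Φ) ((v - 1 / 2) / ρ - z)) * ((1 / ρ : ℝ) : ℂ) *
        ((1 / ρ : ℝ) : ℂ) :=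
    funext fun v => ((conv_deriv k (deriv Φ) hs1 hc1 hk ρ v).mul_const _).deriv
  have hn : ‖((1 / ρ : ℝ) : ℂ)‖ = 1 / ρ := by
    rw [Complex.norm_real, Real.norm_eq_abs, abs_of_pos (by positivity)]
  refine ⟨?_, ?_, ?_, ?_⟩
  · have h1 : ContDiff ℝ ((⊤ : ℕ∞) : WithTop ℕ∞) (fun x => ∫ z, k z * Φ (x - z)) :=
      HasCompactSupport.contDiff_convolution_right (ContinuousLinearMap.mul ℝ ℂ) hc hk hs
    have h2 : ContDiff ℝ ((⊤ : ℕ∞) : WithTop ℕ∞) (fun v : ℝ => (v - 1 / 2) / ρ) :=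
      (contDiff_id.sub contDiff_const).div_const ρ
    exact h1.comp h2
  · intro v
    have h1 := conv_bound k Φ hs.continuous hc Cb hkb ((v - 1 / 2) / ρ)
    rw [← hI0] at h1
    rw [hC]
    nlinarith
  · intro v
    rw [d1]
    have h1 := conv_bound k (deriv Φ) hs1.continuous hc1 Cb hkb ((v - 1 / 2) / ρ)
    rw [← hI1] at h1
    rw [norm_mul, hn]
    have h2 : ‖∫ z, k z * deriv Φ ((v - 1 / 2) / ρ - z)‖ * (1 / ρ) ≤ Cb * I1 * (1 / ρ) :=
      mul_le_mul_of_nonneg_right h1 (by positivity)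
    rw [hC]
    nlinarith
  · intro v
    rw [d1, d2]
    have h1 := conv_bound k (deriv (deriv Φ)) hs2.continuous hc2 Cb hkb ((v - 1 / 2) / ρ)
    rw [← hI2] at h1
    rw [norm_mul, norm_mul, hn]
    have h2 : ‖∫ z, k z * deriv (deriv Φ) ((v - 1 / 2) / ρ - z)‖ * (1 / ρ) * (1 / ρ) ≤
        Cb * I2 * (1 / ρ) * (1 / ρ) := by gcongr
    rw [hC]
    nlinarith

/-- the error is small -/
theorem growth (ρ C : ℝ) (hρ : 0 < ρ) : ∃ q₀ : ℝ, ∀ q : ℝ, q₀ ≤ q →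
    C * q ^ 4 * Real.exp (-(Real.pi * q ^ (4 * ρ) / 4)) ≤ 1 := by
  have h1 := tendsto_rpow_mul_exp_neg_mul_atTop_nhds_zero (1 / ρ) (Real.pi / 4) (by positivity)
  have h2 : Tendsto (fun q : ℝ => q ^ (4 * ρ)) atTop atTop :=
    tendsto_rpow_atTop (by positivity)
  have h3 := (h1.comp h2).const_mul C
  rw [mul_zero] at h3
  have h4 := (h3.eventually (gt_mem_nhds (show (0 : ℝ) < 1 by norm_num))).and
    (eventually_gt_atTop 0)
  obtain ⟨q₀, hq₀⟩ := eventually_atTop.1 h4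
  refine ⟨q₀, fun q hq => ?_⟩
  obtain ⟨h5, h6⟩ := hq₀ q hq
  have h7 : (q ^ (4 * ρ)) ^ (1 / ρ) = q ^ 4 := by
    rw [← Real.rpow_mul h6.le]
    have h8 : 4 * ρ * (1 / ρ) = (4 : ℕ) := by
      field_simp
      norm_num
    rw [h8, Real.rpow_natCast]
  simp only [Function.comp] at h5
  rw [h7] at h5
  have h9 : -(Real.pi / 4) * q ^ (4 * ρ) = -(Real.pi * q ^ (4 * ρ) / 4) := by ring
  rw [h9] at h5
  linarith

end Pool.Agent.Y500.R10
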